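import Pool.Agent.H564R2.EF.Good
import Pool.Agent.H564R2.EF.ToJ
import Pool.Agent.H564R2.EF.SumApprox
import Pool.Agent.H564R2.EF.Elim
import Pool.Agent.H564R2.EF.NumA
import Pool.Agent.H564R2.EF.NumB
import Pool.Agent.H564R2.EF.UpperZero
import Pool.Agent.H564R2.EF.Upper
import Pool.Agent.H564R2.QF.Main
import Pool.Agent.Helper600R2.Lift

/-!
A tight trade-off between the number of extension variables and the size of the lines in
(semantic) extended Frege.
-/

set_option linter.unusedSectionVars false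

namespace Pool.Agent.Results.MP_c07f0d_lc.ExtensionTradeoff

open Finset Pool.Agent.H564R2.EF
open Pool.Agent.Helper600R2 (flow ghd gtl zsum LC nsupp dd bd exists_expander graph_deg
  lifted_no_low_degree Sound)

/-- the blocks -/
abbrev EE (n : ℕ) : Type := Fin n × Bool

/-- the positions inside a block -/
abbrev BB (m : ℕ) : Type := Fin 1 × Fin m

lemma card_EE (n : ℕ) : Fintype.card (EE n) = 2 * n := by
  simp only [EE, Fintype.card_prod, Fintype.card_fin, Fintype.card_bool]; ring

lemma card_BB (m : ℕ) : Fintype.card (BB m) = m := by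
  simp only [BB, Fintype.card_prod, Fintype.card_fin]; ring

lemma card_VV (n m : ℕ) : Fintype.card (EE n × BB m) = 2 * n * m := by
  rw [Fintype.card_prod, card_EE, card_BB]

/-- the edges at a vertex -/
noncomputable def star {n : ℕ} (π : Equiv.Perm (Fin n)) (v : Fin n) : Finset (EE n) :=
  nsupp (q := 2) (dd (ghd π) gtl (Pi.single v (1 : ZMod 2)))

lemma zmod2 (a : ZMod 2) (h : a ≠ 0) : a = 1 := by
  revert a; decide

lemma dd_star {n : ℕ} (π : Equiv.Perm (Fin n)) (v : Fin n) (e : EE n) :
    dd (ghd π) gtl (Pi.single v (1 : ZMod 2)) e = if e ∈ star π v then 1 else 0 := by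
  by_cases he : e ∈ star π v
  · rw [if_pos he]
    apply zmod2
    simpa [star, nsupp] using he
  · rw [if_neg he]
    by_contra h
    exact he (by simpa [star, nsupp] using h)

lemma flow_star {n : ℕ} (π : Equiv.Perm (Fin n)) (v : Fin n) (y : EE n → Bool) :
    flow (ghd π) gtl v (fun e => if y e = true then (1 : ZMod 2) else 0) =
      (((star π v).filter (fun a => y a = true)).card : ZMod 2) := by
  classical
  rw [flow, ← Finset.sum_boole, ← Finset.sum_subset (Finset.subset_univ (star π v))]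
  · refine Finset.sum_congr rfl (fun e he => ?_)
    rw [dd_star, if_pos he, one_mul]
  · intro e _ he
    rw [dd_star, if_neg he, zero_mul]

lemma flow_eq {n m : ℕ} (π : Equiv.Perm (Fin n)) (v : Fin n) (x : EE n × BB m → Bool) :
    flow (ghd π) gtl v (zsum 2 x) =
      (((star π v ×ˢ (univ : Finset (BB m))).filter (fun a => x a = true)).card : ZMod 2) := by
  classical
  have h1 : (((star π v ×ˢ (univ : Finset (BB m))).filter (fun a => x a = true)).card : ZMod 2) =
      ∑ a ∈ star π v ×ˢ (univ : Finset (BB m)), if x a = true then (1 : ZMod 2) else 0 := by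
    rw [Finset.sum_boole]
  rw [h1, Finset.sum_product, flow]
  rw [← Finset.sum_subset (Finset.subset_univ (star π v))]
  · refine Finset.sum_congr rfl (fun e he => ?_)
    rw [dd_star, if_pos he, one_mul, zsum, Fintype.sum_prod_type]
  · intro e _ he
    rw [dd_star, if_neg he, zero_mul]

lemma flow_sum {n : ℕ} (π : Equiv.Perm (Fin n)) (z : EE n → ZMod 2) :
    ∑ v, flow (ghd π) gtl v z = 0 := by
  simp only [flow]
  rw [Finset.sum_comm]
  apply Finset.sum_eq_zero
  intro e _
  rw [← Finset.sum_mul]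
  have : ∑ v, dd (ghd π) gtl (Pi.single v (1 : ZMod 2)) e = 0 := by
    simp only [dd, Finset.sum_sub_distrib, Pi.single_apply]
    simp
  rw [this, zero_mul]

/-- the right-hand sides -/
def bb (n : ℕ) (v : Fin n) : Bool := decide (v.val = 0)

/-- the right-hand sides -/
def bz (n : ℕ) (v : Fin n) : ZMod 2 := if v.val = 0 then 1 else 0

lemma bz_sum {n : ℕ} (hn : 1 ≤ n) : ∑ v : Fin n, bz n v = 1 := by
  unfold bz
  rw [Finset.sum_eq_single (⟨0, by omega⟩ : Fin n)]
  · simp
  · intro v _ hv
    rw [if_neg]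
    intro h
    exact hv (Fin.ext h)
  · intro h; exact absurd (mem_univ _) h

lemma parity_iff {n : ℕ} (v : Fin n) (a : ℕ) :
    (a % 2 = 1 ↔ bb n v = true) ↔ (a : ZMod 2) = bz n v := by
  rw [← Nat.odd_iff, ← ZMod.natCast_eq_one_iff_odd]
  unfold bb bz
  by_cases hv : v.val = 0
  · simp [hv]
  · simp only [hv, decide_false, if_false, Bool.false_eq_true, iff_false]
    constructor
    · intro h
      by_contra h0
      exact h (zmod2 _ h0)
    · intro h h1
      rw [h] at h1
      exact zero_ne_one h1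

lemma star_unsat {n : ℕ} (hn : 1 ≤ n) (π : Equiv.Perm (Fin n)) (y : EE n → Bool) :
    ¬ ∀ v, XorHolds (star π v) (bb n v) y := by
  intro h
  have h1 : ∀ v, flow (ghd π) gtl v (fun e => if y e = true then (1 : ZMod 2) else 0) = bz n v := by
    intro v
    rw [flow_star, ← parity_iff]
    exact h v
  have h2 := flow_sum π (fun e => if y e = true then (1 : ZMod 2) else 0)
  simp only [h1, bz_sum hn] at h2
  exact one_ne_zero h2

theorem result (k : ℕ) (hk : 2 ≤ k) :
    ∃ c : ℝ, 0 < c ∧ ∃ C n₀ : ℕ, ∀ n m : ℕ, n₀ ≤ n → 1 ≤ m →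
      ∃ (S : Fin n → Finset (Fin (2 * n * m))) (b : Fin n → Bool),
        (∀ v, (S v).card ≤ 4 * m) ∧
        (¬ ∃ x, ∀ v, XorHolds (S v) (b v) x) ∧
        (∀ (R : ExtRef S b k) (s : ℕ),
          ∑ i, (R.dfn i).count Sum.isLeft ≤ s → (∀ i, (R.line i).count Sum.isLeft ≤ s) →
          (s : ℝ) * (R.ext + n) ≤ c * (n * m) ^ 2 → (2 : ℝ) ^ (c * n) ≤ R.len) ∧
        (∃ R : ExtRef S b k, R.ext = 0 ∧ (∀ i, (R.line i).occ ≤ C * (n * m ^ 2)) ∧
          R.len ≤ 2 * n) ∧
        (∀ q, 1 ≤ q → q ≤ m → ∃ R : ExtRef S b k, R.ext = 2 * n * q ∧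
          (∑ i, (R.dfn i).occ) * q ≤ C * (n * m ^ 2) ∧
          (∀ i, (R.line i).occ ≤ C * (m ^ 2 + n)) ∧ R.len ≤ C * (n * q) ∧
          (∀ i, (R.dfn i).occ ≤ C * m ^ 2)) := by
  classical
  obtain ⟨η, hη, n₁, hnum⟩ := num_a k
  obtain ⟨c, hc0, hc1, hnumb⟩ := num_b η hη
  refine ⟨c, hc0, 1000, max n₁ 25, ?_⟩
  intro n m hn hm
  have hn1 : n₁ ≤ n := (le_max_left _ _).trans hn
  have hn25 : 25 ≤ n := (le_max_right _ _).trans hn
  obtain ⟨π, hπ⟩ := exists_expander hn25
  let e : EE n × BB m ≃ Fin (2 * n * m) := Fintype.equivFinOfCardEq (card_VV n m)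
  let S : Fin n → Finset (Fin (2 * n * m)) := fun v =>
    ((star π v) ×ˢ (univ : Finset (BB m))).map e.toEmbedding
  have hstar : ∀ v, (star π v).card ≤ 4 := fun v => graph_deg (q := 2) π v 1
  have hxor : ∀ (v : Fin n) (x : Fin (2 * n * m) → Bool),
      XorHolds (S v) (bb n v) x ↔ LC π (bz n) v (fun a => x (e a)) := by
    intro v x
    have h1 : ((S v).filter (fun i => x i = true)).card =
        ((star π v ×ˢ (univ : Finset (BB m))).filter (fun a => x (e a) = true)).card := by
      simp only [S, Finset.filter_map, Finset.card_map]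
      rfl
    simp only [XorHolds, LC, flow_eq, h1]
    exact parity_iff v _
  refine ⟨S, bb n, ?_, ?_, ?_, ?_, ?_⟩
  · intro v
    have h1 : (star π v ×ˢ (univ : Finset (BB m))).card ≤ 4 * m := by
      rw [card_product]
      have h3 : (univ : Finset (BB m)).card = m := by rw [card_univ, card_BB]
      rw [h3]
      exact Nat.mul_le_mul_right m (hstar v)
    simpa [S] using h1
  · rintro ⟨x, hx⟩
    have h1 : ∀ v, flow (ghd π) gtl v (zsum 2 (fun a : EE n × BB m => x (e a))) = bz n v := fun v =>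
      (hxor v x).mp (hx v)
    have h2 := flow_sum π (zsum 2 (fun a : EE n × BB m => x (e a)))
    simp only [h1, bz_sum (by omega : 1 ≤ n)] at h2
    exact one_ne_zero h2
  · intro R s hs1 hs2 hprod
    by_contra hT
    push Not at hT
    have hnr : (1 : ℝ) ≤ n := by exact_mod_cast (by omega : 1 ≤ n)
    have hlen : (R.len : ℝ) ≤ 2 ^ n := by
      refine hT.le.trans ?_
      rw [← Real.rpow_natCast]
      apply Real.rpow_le_rpow_of_exponent_le (by norm_num)
      nlinarith
    obtain ⟨Z, hZ, hF⟩ := elim R.dfn R.dfn_lt s hs1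
    choose F hF1 hF2 using fun i => hF (R.line i) (hs2 i)
    -- degree
    obtain ⟨D, hD, happ⟩ : ∃ D : ℕ, (D : ℝ) ≤ η * (n * m) ∧
        ∀ i, ∃ P ∈ Pool.Agent.H564R2.QF.LowDeg (EE n × BB m) D, ∀ x : EE n × BB m → Bool,
          |P x - ∑ a, ind (((F i a).map e.symm).eval x)| ≤ (1 / 2 : ℝ) ^ (6 * n) := by
      rcases hnumb n m R.ext s (by omega) hm hprod with h | ⟨k', T, h1, h2, h3, h4, h5⟩
      · refine ⟨2 * s, h, fun i => ?_⟩
        exact sum_approx R.ext (2 * s) (2 * s) 1 1 (fun a => (F i a).map e.symm)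
          (fun a => by rw [Pool.Agent.H564R2.QF.Fml.size_map]; exact hF1 i a) _ (by positivity) (Or.inl le_rfl)
      · refine ⟨12780 * k' * T, h4, fun i => ?_⟩
        exact sum_approx R.ext (2 * s) (12780 * k' * T) k' T (fun a => (F i a).map e.symm)
          (fun a => by rw [Pool.Agent.H564R2.QF.Fml.size_map]; exact hF1 i a) _ (by positivity)
          (Or.inr ⟨h1, h2, h3, le_rfl, h5⟩)
    obtain ⟨d, hd1, hd2⟩ := hnum n m D hn1 hm hD
    choose P hP1 hP2 using happ
    let f : Fin R.len → (EE n × BB m → Bool) → Bool := fun i x =>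
      (R.line i).eval (Sum.elim (fun a => x (e.symm a)) (Z (fun a => x (e.symm a))))
    have hPf : ∀ i x, |P i x - ind (f i x)| ≤ (1 / 2 : ℝ) ^ (6 * n) := by
      intro i x
      have h1 : ind (f i x) = ∑ a, ind (((F i a).map e.symm).eval x) := by
        simp only [Pool.Agent.H564R2.QF.Fml.eval_map]
        exact hF2 i _
      rw [h1]
      exact hP2 i x
    obtain ⟨σ, u, hgood⟩ := exists_good (E := EE n) (B := BB m) (by rw [card_BB]; exact hm)
      (D := D) (d := d) f P hP1 ((1 / 2 : ℝ) ^ (6 * n)) (by positivity)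
      (pow_le_one₀ (by norm_num) (by norm_num)) hPf (by
        rw [card_EE, card_BB]
        refine lt_of_le_of_lt ?_ hd2
        exact mul_le_mul_of_nonneg_right hlen (by positivity))
    have hprim : IsPrimitiveRoot (-1 : ℝ) 2 := IsPrimitiveRoot.neg_one 0 (by norm_num)
    have hprim' := AddChar.zmodChar_primitive_of_primitive_root 2 hprim
    obtain ⟨i, hi⟩ := R.contra
    obtain ⟨x, hx⟩ := lifted_no_low_degree (r := 1) (m := m) π _ hprim' (by norm_num)
      (by norm_num : 1 + 1 = 2) (by omega) hπ (bz n) d k hd1 f (by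
        intro i
        rcases R.sound i with ⟨v, hv⟩ | ⟨j, hj⟩ | ⟨P, hP1, hP2, hP3⟩
        · left
          refine ⟨v, fun x hx => hv _ ?_⟩
          show XorHolds (S v) (bb n v) (fun a => x (e.symm a))
          rw [hxor]
          simpa using hx
        · right
          refine ⟨∅, by simp, by simp, fun x _ => hj _ ?_⟩
          exact hZ _ j
        · right
          exact ⟨P, hP1, hP2, fun x hx => hP3 _ hx⟩)
      (fun p => (decide (p.2 = σ p.1), u p)) (by
        intro e t
        refine ⟨(σ e).2, ?_⟩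
        simp only [decide_eq_true_eq]
        exact Prod.ext (Subsingleton.elim _ _) rfl)
      (fun i => to_J (f i) σ u d (hgood i)) i
    have h1 := hi (Sum.elim (fun a => x (e.symm a)) (Z (fun a => x (e.symm a))))
    have h2 : (R.line i).eval
      (Sum.elim (fun a => x (e.symm a)) (Z (fun a => x (e.symm a)))) = true := hx
    rw [h1] at h2
    exact Bool.false_ne_true h2
  · obtain ⟨R, h1, h2, h3⟩ := upper_zero (by omega : 1 ≤ n) hm (card_BB m) (star π) hstar (bb n)
      (star_unsat (by omega) π) e k hk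
    exact ⟨R, h1, fun i => (h2 i).trans (Nat.mul_le_mul_right _ (by norm_num)), h3⟩
  · intro q hq hqm
    exact upper (by omega : 1 ≤ n) hm (card_EE n) (card_BB m) (star π) hstar (bb n)
      (star_unsat (by omega) π) e k hk q hq hqm

end Pool.Agent.Results.MP_c07f0d_lc.ExtensionTradeoff
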