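import Pool.Agent.H586T.TMain
import Pool.Agent.H586T.R3

set_option autoImplicit false

namespace Pool.Agent.Results.MP_c07f0d_lc.RulesSimulatingExtension

open Pool.Agent.H555R2.PF Pool.Agent.H586S Pool.Agent.H586T

/-- Let `F` be a Frege system and let `H` be a set of substitution templates, each changing
finitely many variables; `F + H` is `F` with the following rules: from `A` infer `A` with the template
`θ ∈ H` substituted for any choice of distinct variables (if `r` holds, only variables occurring
in `A` may be used). If the templates in `H` have neither the assignment with constant value `0`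
nor the one with constant value `1` as a common fixed point, then `F + H` polynomially simulates
extended Frege. -/
theorem result (F : List Rule) (hF : IsFrege F) (H : Set (ℕ → Fm)) (hloc : ∀ θ ∈ H, Loc θ)
    (h0 : ∃ θ ∈ H, ¬ Fixes False θ) (h1 : ∃ θ ∈ H, ¬ Fixes True θ) (r : Prop) :
    PolySim (EFSize F) (SSize F H r) :=
  main_nofix hF t3s hloc h0 h1 r

end Pool.Agent.Results.MP_c07f0d_lc.RulesSimulatingExtension
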