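import Pool.Agent.H586T.TMain
import Pool.Agent.H586T.R2
import Pool.Agent.H586T.R4

set_option autoImplicit false

namespace Pool.Agent.Results.MP_c07f0d_lc.SubstitutionRules

open Pool.Agent.H555R2.PF Pool.Agent.H586S Pool.Agent.H586T

/-- **Dichotomy for local substitution rules with respect to Q1.**
Let `F` be a Frege system and let `H` be a finite set of substitution templates, each changing
finitely many variables; `F + H` is `F` with the following rules: from `A` infer `A` with the template
`θ ∈ H` substituted for any choice of distinct variables (if `r` holds, only variables occurring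
in `A` may be used).
* If every template replaces each variable by an equivalent formula, then `F` polynomially
  simulates `F + H`.
* Otherwise `F + H` is as strong as extended Frege with respect to Q1: if extended Frege is
  exponentially separated from `F`, then so is `F + H`; and if `F` polynomially simulates `F + H`,
  then `F` polynomially simulates extended Frege. -/
theorem result (F : List Rule) (hF : IsFrege F) (H : Set (ℕ → Fm)) (hfin : H.Finite)
    (hloc : ∀ θ ∈ H, Loc θ) (r : Prop) :
    ((∀ θ ∈ H, Triv θ) → PolySim (SSize F H r) (FSize F)) ∧
    ((∃ θ ∈ H, ¬ Triv θ) →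
      (ExpSep (EFSize F) (FSize F) → ExpSep (SSize F H r) (FSize F)) ∧
      (PolySim (SSize F H r) (FSize F) → PolySim (EFSize F) (FSize F))) :=
  ⟨fun h => t2 F hF H hfin (fun θ hθ => ⟨hloc θ hθ, h θ hθ⟩) r,
    fun h => main_nontriv hF (t4 hF) hloc h r⟩

end Pool.Agent.Results.MP_c07f0d_lc.SubstitutionRules
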