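import Mathlib
import Pool.Agent.H688R2.Gap.Defs
import Pool.Agent.H688R2.Gap.Main
import Pool.Agent.H688R2.Gap.Up

namespace H688R2.Gap

open Equiv

/-- **Gap theorem for symmetric extended Frege refutations.**  Consider the propositional statement
that a sentence `∀ x ∃ y θ` has a model with a given finite domain.
1. If the sentence has no infinite model, then on all large domains the statement has refutations
   whose lines consist of a bounded number of variables.
2. If the sentence has an infinite model, then, on every domain `α ⊕ B`, every extended Frege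
   refutation (lines are sets of at most `w` circuits of any depth, every inference uses at most `c`
   definitions of circuits and instances of the sentence) that is invariant under the permutations
   of `α` contains a circuit with more than `|α| ^ (k / 2)` images. -/
theorem _root_.Pool.Agent.Results.MP_c07f0d_lc.SymmetricGap.result
    (σ : Sig) (_ : Finite σ.R) (Φ : Sentence σ) :
    ((¬ ∃ (M : Type) (_ : Infinite M) (S : Atom σ M → Prop), Φ.Models S) →
      ∃ N, ∀ (A : Type) (_ : Finite A), N ≤ Nat.card A → (justAtoms σ A).Refutes Φ N 1) ∧
    ((∃ (M : Type) (_ : Infinite M) (S : Atom σ M → Prop), Φ.Models S) →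
      ∀ (α B Q : Type) (_ : Fintype α) (_ : Fintype B) (_ : MulAction (Perm α) Q)
        (F : Dag (Atom σ (α ⊕ B)) Q) (k w c : ℕ), F.Invariant → 1 ≤ k →
        16 * (k + 1) * (k + 1) * (Nat.log 2 (Fintype.card α) + 1) ≤ Fintype.card α →
        w * k + c * (3 * k + Φ.p + Φ.q) + 2 * k + 3 ≤ Fintype.card α →
        F.Refutes Φ w c →
        ∃ q : Q, Fintype.card α ^ k < Nat.card (MulAction.orbit (Perm α) q) ^ 2) := by
  constructor
  · intro h
    apply refutes_of_no_model
    intro S hS
    exact h ⟨ℕ, inferInstance, S, hS⟩
  · rintro ⟨M, _, S, hS⟩ α B Q _ _ _ F k w c hF hk h1 h2 hR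
    by_contra hq
    push Not at hq
    exact not_refutes Φ S hS F hF hk hq h1 h2 hR

end H688R2.Gap
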